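import Mathlib
import Pool.Agent.H590.PL.Stm

set_option autoImplicit false

open MeasureTheory Filter Topology Set
open scoped BigOperators ENNReal Pointwise
open H590PL

namespace Pool.Agent.H190.PL

theorem simple_norm {Ω : Type} [MeasurableSpace Ω] (μ : Measure Ω) [IsFiniteMeasure μ] {p : ℝ}
    (hp : 1 < p) (g0 g1 : Lp.simpleFunc ℝ (ENNReal.ofReal p) μ) :
    ∃ (κ : Type) (_ : Fintype κ) (v : κ → P2), ∀ a b : ℝ,
      ∑ k, |ip (v k) (a, b)| ^ p =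
        ‖a • (g0 : Lp ℝ (ENNReal.ofReal p) μ) + b • (g1 : Lp ℝ (ENNReal.ofReal p) μ)‖ ^ p := by
  classical
  have hp0 : 0 < p := by linarith
  have hpne0 : ENNReal.ofReal p ≠ 0 := by simp [hp0]
  have hptop : ENNReal.ofReal p ≠ ⊤ := ENNReal.ofReal_ne_top
  have hpr : (ENNReal.ofReal p).toReal = p := ENNReal.toReal_ofReal hp0.le
  obtain ⟨s, hs⟩ : ∃ s : SimpleFunc Ω (ℝ × ℝ),
      s = (Lp.simpleFunc.toSimpleFunc g0).pair (Lp.simpleFunc.toSimpleFunc g1) := ⟨_, rfl⟩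
  refine ⟨{c // c ∈ s.range}, inferInstance,
    fun c => (μ.real (s ⁻¹' {(c : ℝ × ℝ)})) ^ (1 / p) • (c : ℝ × ℝ), fun a b => ?_⟩
  -- the left side
  have hL : ∑ k : {c // c ∈ s.range},
      |ip ((μ.real (s ⁻¹' {(k : ℝ × ℝ)})) ^ (1 / p) • (k : ℝ × ℝ)) (a, b)| ^ p =
      ∑ c ∈ s.range, μ.real (s ⁻¹' {c}) * |ip c (a, b)| ^ p := by
    rw [Finset.sum_coe_sort s.range (fun c : ℝ × ℝ =>
      |ip ((μ.real (s ⁻¹' {c})) ^ (1 / p) • c) (a, b)| ^ p)]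
    refine Finset.sum_congr rfl fun c _ => ?_
    have h0 : 0 ≤ μ.real (s ⁻¹' {c}) := measureReal_nonneg
    have e1 : ip ((μ.real (s ⁻¹' {c})) ^ (1 / p) • c) (a, b) =
        (μ.real (s ⁻¹' {c})) ^ (1 / p) * ip c (a, b) := by
      unfold ip
      show (μ.real (s ⁻¹' {c})) ^ (1 / p) * c.1 * a + (μ.real (s ⁻¹' {c})) ^ (1 / p) * c.2 * b = _
      ring
    rw [e1, abs_mul, Real.mul_rpow (abs_nonneg _) (abs_nonneg _),
      abs_of_nonneg (Real.rpow_nonneg h0 _), ← Real.rpow_mul h0, one_div_mul_cancel hp0.ne',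
      Real.rpow_one]
  rw [hL]
  -- the integral
  have hint : ∫ t, |ip (s t) (a, b)| ^ p ∂μ = ∑ c ∈ s.range, μ.real (s ⁻¹' {c}) * |ip c (a, b)| ^ p := by
    have h1 := SimpleFunc.map_integral s (fun c : ℝ × ℝ => |ip c (a, b)| ^ p)
      (SimpleFunc.integrable_of_isFiniteMeasure (μ := μ) s) (by
        unfold ip
        simp [Real.zero_rpow hp0.ne'])
    have h2 := SimpleFunc.integral_eq_integral (s.map (fun c : ℝ × ℝ => |ip c (a, b)| ^ p))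
      (SimpleFunc.integrable_of_isFiniteMeasure (μ := μ) _)
    rw [h1] at h2
    simp only [smul_eq_mul] at h2
    rw [h2]
    rfl
  rw [← hint]
  -- the norm
  have hae : (⇑(a • (g0 : Lp ℝ (ENNReal.ofReal p) μ) + b • (g1 : Lp ℝ (ENNReal.ofReal p) μ)) : Ω → ℝ)
      =ᵐ[μ] fun t => ip (s t) (a, b) := by
    filter_upwards [Lp.coeFn_add (a • (g0 : Lp ℝ (ENNReal.ofReal p) μ))
      (b • (g1 : Lp ℝ (ENNReal.ofReal p) μ)), Lp.coeFn_smul a (g0 : Lp ℝ (ENNReal.ofReal p) μ),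
      Lp.coeFn_smul b (g1 : Lp ℝ (ENNReal.ofReal p) μ), Lp.simpleFunc.toSimpleFunc_eq_toFun g0,
      Lp.simpleFunc.toSimpleFunc_eq_toFun g1] with t h1 h2 h3 h4 h5
    rw [h1, Pi.add_apply, h2, h3, Pi.smul_apply, Pi.smul_apply, ← h4, ← h5, hs]
    unfold ip
    rw [SimpleFunc.pair_apply]
    simp only [smul_eq_mul]
    ring
  have hmem := Lp.memLp (a • (g0 : Lp ℝ (ENNReal.ofReal p) μ) + b • (g1 : Lp ℝ (ENNReal.ofReal p) μ))
  rw [Lp.norm_def, hmem.eLpNorm_eq_integral_rpow_norm hpne0 hptop, hpr]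
  have hcongr : ∫ t, ‖(a • (g0 : Lp ℝ (ENNReal.ofReal p) μ) +
      b • (g1 : Lp ℝ (ENNReal.ofReal p) μ) : Lp ℝ (ENNReal.ofReal p) μ) t‖ ^ p ∂μ =
      ∫ t, |ip (s t) (a, b)| ^ p ∂μ := by
    refine integral_congr_ae ?_
    filter_upwards [hae] with t ht
    rw [ht, Real.norm_eq_abs]
  rw [hcongr]
  have hI : 0 ≤ ∫ t, |ip (s t) (a, b)| ^ p ∂μ :=
    integral_nonneg fun t => Real.rpow_nonneg (abs_nonneg _) _
  rw [ENNReal.toReal_ofReal (Real.rpow_nonneg hI _), ← Real.rpow_mul hI, inv_mul_cancel₀ hp0.ne',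
    Real.rpow_one]

/-- approximation of two functions by simple functions -/
theorem approx {p : ℝ} (hp : 1 < p)
    (f : Fin 2 → MeasureTheory.Lp ℝ (ENNReal.ofReal p)
      ((MeasureTheory.volume : MeasureTheory.Measure ℝ).restrict (Set.Icc (0:ℝ) 1)))
    (hf : LinearIndependent ℝ f) {δ : ℝ} (hδ : 0 < δ) (hδ1 : δ < 1) :
    ∃ (κ : Type) (_ : Fintype κ) (v : κ → P2) (G : (Fin 2 → ℝ) → ℝ), Spans v ∧
      (∀ x, ∑ k, |ip (v k) (x 0, x 1)| ^ p ≤ 1 ↔ G x ≤ 1) ∧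
      (∀ x, (1 - δ) * ‖∑ i, x i • f i‖ ≤ G x) ∧ ∀ x, G x ≤ (1 + δ) * ‖∑ i, x i • f i‖ := by
  have hp0 : 0 < p := by linarith
  have hfact : Fact (1 ≤ ENNReal.ofReal p) := ⟨by
    rw [← ENNReal.ofReal_one]
    exact ENNReal.ofReal_le_ofReal hp.le⟩
  have hptop : ENNReal.ofReal p ≠ ⊤ := ENNReal.ofReal_ne_top
  obtain ⟨L, hL⟩ : ∃ L : (Fin 2 → ℝ) →ₗ[ℝ] MeasureTheory.Lp ℝ (ENNReal.ofReal p)
      ((MeasureTheory.volume : MeasureTheory.Measure ℝ).restrict (Set.Icc (0:ℝ) 1)),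
      ∀ x, L x = ∑ i, x i • f i := ⟨Fintype.linearCombination ℝ f, fun x => rfl⟩
  have hker : LinearMap.ker L = ⊥ := by
    rw [LinearMap.ker_eq_bot']
    intro x hx
    rw [hL] at hx
    have := Fintype.linearIndependent_iff.1 hf x hx
    funext i
    exact this i
  obtain ⟨K, hK0, hK⟩ := L.exists_antilipschitzWith hker
  have hKx : ∀ x : Fin 2 → ℝ, ‖x‖ ≤ K * ‖∑ i, x i • f i‖ := by
    intro x
    have h1 := hK.le_mul_dist x 0
    rw [map_zero, dist_zero_right, dist_zero_right, hL] at h1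
    exact h1
  have hKpos : (0 : ℝ) < K := by exact_mod_cast hK0
  have hε : 0 < δ / (2 * K) := by positivity
  obtain ⟨y0, hy0, hd0⟩ := (Lp.simpleFunc.dense (E := ℝ)
    (μ := (MeasureTheory.volume : MeasureTheory.Measure ℝ).restrict (Set.Icc (0:ℝ) 1))
    hptop).exists_dist_lt (f 0) hε
  obtain ⟨y1, hy1, hd1⟩ := (Lp.simpleFunc.dense (E := ℝ)
    (μ := (MeasureTheory.volume : MeasureTheory.Measure ℝ).restrict (Set.Icc (0:ℝ) 1))
    hptop).exists_dist_lt (f 1) hε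
  obtain ⟨κ, hκ, v, hv⟩ := simple_norm
    ((MeasureTheory.volume : MeasureTheory.Measure ℝ).restrict (Set.Icc (0:ℝ) 1)) hp
    (⟨y0, hy0⟩ : Lp.simpleFunc ℝ (ENNReal.ofReal p) _) (⟨y1, hy1⟩ : Lp.simpleFunc ℝ (ENNReal.ofReal p) _)
  have hv' : ∀ a b : ℝ, ∑ k, |ip (v k) (a, b)| ^ p = ‖a • y0 + b • y1‖ ^ p := hv
  have hdiff : ∀ x : Fin 2 → ℝ, ‖(x 0 • y0 + x 1 • y1) - ∑ i, x i • f i‖ ≤
      δ * ‖∑ i, x i • f i‖ := by
    intro x
    have e1 : (x 0 • y0 + x 1 • y1) - ∑ i, x i • f i = x 0 • (y0 - f 0) + x 1 • (y1 - f 1) := by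
      rw [Fin.sum_univ_two, smul_sub, smul_sub]
      abel
    have h0 : ‖y0 - f 0‖ ≤ δ / (2 * K) := by
      rw [← dist_eq_norm, dist_comm]
      exact hd0.le
    have h1 : ‖y1 - f 1‖ ≤ δ / (2 * K) := by
      rw [← dist_eq_norm, dist_comm]
      exact hd1.le
    rw [e1]
    calc ‖x 0 • (y0 - f 0) + x 1 • (y1 - f 1)‖ ≤ ‖x 0 • (y0 - f 0)‖ + ‖x 1 • (y1 - f 1)‖ :=
          norm_add_le _ _
      _ = ‖x 0‖ * ‖y0 - f 0‖ + ‖x 1‖ * ‖y1 - f 1‖ := by rw [norm_smul, norm_smul]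
      _ ≤ ‖x‖ * (δ / (2 * K)) + ‖x‖ * (δ / (2 * K)) :=
          add_le_add (mul_le_mul (norm_le_pi_norm x 0) h0 (norm_nonneg _) (norm_nonneg _))
            (mul_le_mul (norm_le_pi_norm x 1) h1 (norm_nonneg _) (norm_nonneg _))
      _ = ‖x‖ * (δ / K) := by field_simp; ring
      _ ≤ (K * ‖∑ i, x i • f i‖) * (δ / K) :=
          mul_le_mul_of_nonneg_right (hKx x) (by positivity)
      _ = δ * ‖∑ i, x i • f i‖ := by field_simp
  have hlow : ∀ x : Fin 2 → ℝ, (1 - δ) * ‖∑ i, x i • f i‖ ≤ ‖x 0 • y0 + x 1 • y1‖ := by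
    intro x
    have h2 := hdiff x
    have h3 := norm_sub_norm_le (∑ i, x i • f i) (x 0 • y0 + x 1 • y1)
    rw [norm_sub_rev] at h3
    linarith
  have hupp : ∀ x : Fin 2 → ℝ, ‖x 0 • y0 + x 1 • y1‖ ≤ (1 + δ) * ‖∑ i, x i • f i‖ := by
    intro x
    have h2 := hdiff x
    have h3 := norm_sub_norm_le (x 0 • y0 + x 1 • y1) (∑ i, x i • f i)
    linarith
  refine ⟨κ, hκ, v, fun x => ‖x 0 • y0 + x 1 • y1‖, ?_, ?_, hlow, hupp⟩
  · -- spanning
    by_contra hns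
    unfold Spans at hns
    push Not at hns
    obtain ⟨a, b, hab, hzero⟩ : ∃ a b : ℝ, (a ≠ 0 ∨ b ≠ 0) ∧ ∀ k, ip (v k) (a, b) = 0 := by
      by_cases hall : ∀ k, v k = 0
      · refine ⟨1, 0, Or.inl one_ne_zero, fun k => ?_⟩
        rw [hall k]
        unfold ip
        simp
      · push Not at hall
        obtain ⟨k0, hk0⟩ := hall
        refine ⟨-(v k0).2, (v k0).1, ?_, fun k => ?_⟩
        · by_contra hcon
          push Not at hcon
          exact hk0 (Prod.ext hcon.2 (by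
            have := hcon.1
            simpa using this))
        · have := hns k0 k
          unfold dt at this
          unfold ip
          simp only
          linarith
    have h1 := hv' a b
    have h2 : ∑ k, |ip (v k) (a, b)| ^ p = 0 := by
      refine Finset.sum_eq_zero fun k _ => ?_
      rw [hzero k, abs_zero, Real.zero_rpow hp0.ne']
    rw [h2] at h1
    have h3 : ‖a • y0 + b • y1‖ = 0 := by
      by_contra hne
      have : 0 < ‖a • y0 + b • y1‖ ^ p :=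
        Real.rpow_pos_of_pos (lt_of_le_of_ne (norm_nonneg _) (Ne.symm hne)) _
      linarith
    have h4 := hlow ![a, b]
    have e2 : ‖(![a, b] : Fin 2 → ℝ) 0 • y0 + (![a, b] : Fin 2 → ℝ) 1 • y1‖ = 0 := h3
    rw [e2] at h4
    have h5 : ‖∑ i, (![a, b] : Fin 2 → ℝ) i • f i‖ ≤ 0 := by
      by_contra hcon
      push Not at hcon
      have := mul_pos (by linarith : 0 < 1 - δ) hcon
      linarith
    have h6 := norm_le_zero_iff.1 h5
    have h7 := Fintype.linearIndependent_iff.1 hf _ h6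
    have h8 : a = 0 := h7 0
    have h9 : b = 0 := h7 1
    rcases hab with h | h
    · exact h h8
    · exact h h9
  · intro x
    rw [hv' (x 0) (x 1)]
    have := Real.rpow_le_rpow_iff (norm_nonneg (x 0 • y0 + x 1 • y1)) zero_le_one hp0
    rw [Real.one_rpow] at this
    exact this

theorem LP (h : S_FIN) : S_LP := by
  intro p hp1 hp2 f hf
  have hp0 : 0 < p := by linarith
  obtain ⟨A, hA⟩ : ∃ A : Set (Fin 2 → ℝ), A = {x : Fin 2 → ℝ | ‖∑ i, x i • f i‖ ≤ 1} := ⟨_, rfl⟩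
  obtain ⟨B, hB⟩ : ∃ B : Set (Fin 2 → ℝ), B = {y : Fin 2 → ℝ | ∀ x : Fin 2 → ℝ,
      ‖∑ i, x i • f i‖ ≤ 1 → ∑ i, x i * y i ≤ 1} := ⟨_, rfl⟩
  rw [← hA, ← hB]
  obtain ⟨Z, hZ⟩ : ∃ Z : ℝ≥0∞, Z = MeasureTheory.volume {x : Fin 2 → ℝ | ∑ i, |x i| ^ p ≤ 1} *
    MeasureTheory.volume {y : Fin 2 → ℝ | ∀ x : Fin 2 → ℝ,
      ∑ i, |x i| ^ p ≤ 1 → ∑ i, x i * y i ≤ 1} := ⟨_, rfl⟩
  rw [← hZ]
  have hfact : Fact (1 ≤ ENNReal.ofReal p) := ⟨by
    rw [← ENNReal.ofReal_one]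
    exact ENNReal.ofReal_le_ofReal hp1.le⟩
  have hscale : ∀ {x : Fin 2 → ℝ} {r : ℝ}, 0 ≤ r →
      ‖∑ i, (r • x) i • f i‖ = r * ‖∑ i, x i • f i‖ := by
    intro x r hr
    have : ∑ i, (r • x) i • f i = r • ∑ i, x i • f i := by
      rw [Finset.smul_sum]
      refine Finset.sum_congr rfl fun i _ => ?_
      rw [Pi.smul_apply, smul_eq_mul, mul_smul]
    rw [this]
    have hn : ‖r • ∑ i, x i • f i‖ = ‖r‖ * ‖∑ i, x i • f i‖ := norm_smul r _
    rw [hn, Real.norm_of_nonneg hr]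
  have key : ∀ δ : ℝ, 0 < δ → δ < 1 →
      Z ≤ ENNReal.ofReal (((1 + δ) * (1 - δ)⁻¹) ^ 2) * (volume A * volume B) := by
    intro δ hδ hδ1
    obtain ⟨κ, hκ, v, G, hsp, hG, hlow, hupp⟩ := approx hp1 f hf hδ hδ1
    have h1 := h κ p hp1 hp2 v hsp
    rw [← hZ] at h1
    have hmp := volume_preserving_finTwoArrow ℝ
    rw [← hmp.measure_preimage_equiv {x : P2 | ∑ k, |ip (v k) x| ^ p ≤ 1},
      ← hmp.measure_preimage_equiv {y : P2 | ∀ x : P2, ∑ k, |ip (v k) x| ^ p ≤ 1 → ip x y ≤ 1}] at h1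
    have s1 : (MeasurableEquiv.finTwoArrow : (Fin 2 → ℝ) ≃ᵐ ℝ × ℝ) ⁻¹'
        {x : P2 | ∑ k, |ip (v k) x| ^ p ≤ 1} ⊆ (1 - δ)⁻¹ • A := by
      intro x hx
      have hx' : ∑ k, |ip (v k) (x 0, x 1)| ^ p ≤ 1 := hx
      have hd : (0 : ℝ) < 1 - δ := by linarith
      rw [Set.mem_inv_smul_set_iff₀ hd.ne', hA, mem_setOf_eq, hscale hd.le]
      exact (hlow x).trans ((hG x).1 hx')
    have s2 : (MeasurableEquiv.finTwoArrow : (Fin 2 → ℝ) ≃ᵐ ℝ × ℝ) ⁻¹'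
        {y : P2 | ∀ x : P2, ∑ k, |ip (v k) x| ^ p ≤ 1 → ip x y ≤ 1} ⊆ (1 + δ) • B := by
      intro y hy
      have hy' : ∀ x : P2, ∑ k, |ip (v k) x| ^ p ≤ 1 → ip x (y 0, y 1) ≤ 1 := hy
      have hd : (0 : ℝ) < 1 + δ := by linarith
      rw [Set.mem_smul_set_iff_inv_smul_mem₀ hd.ne', hB, mem_setOf_eq]
      intro x hx
      have h2 : G ((1 + δ)⁻¹ • x) ≤ 1 := by
        refine (hupp _).trans ?_
        rw [hscale (inv_nonneg.2 hd.le), ← mul_assoc, mul_inv_cancel₀ hd.ne', one_mul]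
        exact hx
      have h3 := hy' (((1 + δ)⁻¹ • x) 0, ((1 + δ)⁻¹ • x) 1) ((hG _).2 h2)
      unfold ip at h3
      rw [Fin.sum_univ_two]
      simp only [Pi.smul_apply, smul_eq_mul] at h3 ⊢
      linarith
    have v1 := measure_mono (μ := volume) s1
    have v2 := measure_mono (μ := volume) s2
    rw [Measure.addHaar_smul, Module.finrank_fin_fun] at v1 v2
    have hd : (0 : ℝ) < 1 - δ := by linarith
    rw [abs_of_nonneg (by positivity)] at v1 v2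
    refine h1.trans ((mul_le_mul' v1 v2).trans (le_of_eq ?_))
    rw [mul_pow, ENNReal.ofReal_mul (by positivity)]
    ring
  have hlim : Tendsto (fun δ : ℝ => ENNReal.ofReal (((1 + δ) * (1 - δ)⁻¹) ^ 2) *
      (volume A * volume B)) (𝓝[>] 0) (𝓝 (1 * (volume A * volume B))) := by
    refine ENNReal.Tendsto.mul_const ?_ (Or.inl one_ne_zero)
    have h1 : ContinuousAt (fun δ : ℝ => ((1 + δ) * (1 - δ)⁻¹) ^ 2) 0 := by
      have : (1 : ℝ) - 0 ≠ 0 := by norm_num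
      fun_prop (disch := assumption)
    have h2 := (ENNReal.continuous_ofReal.continuousAt.comp h1).tendsto
    have e : (ENNReal.ofReal ∘ fun δ : ℝ => ((1 + δ) * (1 - δ)⁻¹) ^ 2) 0 = 1 := by
      simp
    rw [e] at h2
    exact h2.mono_left nhdsWithin_le_nhds
  rw [one_mul] at hlim
  refine ge_of_tendsto hlim ?_
  filter_upwards [Ioo_mem_nhdsGT (show (0 : ℝ) < 1 by norm_num)] with δ hδ
  exact key δ hδ.1 hδ.2

end Pool.Agent.H190.PL
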